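import Pool.Agent.H59.MMS.Basic

/-!
# MMS4: exposure recursion for random `k`-subsets and the abstract Bellman rules

`pr k V z x` is the probability of `0 ≤ z + ∑_{S} x` for a uniform `k`-subset `S` of `V`.
`Bd N K z Q c τ`: every centred system on `N` elements with square sum `Q` and all `|x i| ≤ c` has
`τ ≤ pr K V z x`. Rules: monotonicity, scaling, `Bd.expose` (expose an element of largest absolute
value and centre the rest again).
-/

set_option autoImplicit false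
set_option linter.unusedSectionVars false

namespace Pool.Agent.MMS4

open Finset Pool.Agent.H59.MMS

variable {α : Type*} [DecidableEq α]

/-- The probability that `z + x(S) ≥ 0` for a random `k`-subset `S` of `V`. -/
noncomputable def pr (k : ℕ) (V : Finset α) (z : ℝ) (x : α → ℝ) : ℝ :=
  av k V (fun S => if 0 ≤ z + ∑ i ∈ S, x i then 1 else 0)

theorem pr_zero_eq (k : ℕ) (V : Finset α) (x : α → ℝ) : pr k V 0 x = av k V (nn x) := by
  unfold pr nn
  simp only [zero_add]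

theorem pr_nonneg (k : ℕ) (V : Finset α) (z : ℝ) (x : α → ℝ) : 0 ≤ pr k V z x :=
  av_nonneg fun S _ _ => by split_ifs <;> norm_num

theorem pr_le_one {k : ℕ} {V : Finset α} (h : k ≤ V.card) (z : ℝ) (x : α → ℝ) :
    pr k V z x ≤ 1 := by
  have := av_mono (k := k) (V := V) (F := fun S => if 0 ≤ z + ∑ i ∈ S, x i then (1 : ℝ) else 0)
    (G := fun _ => (1 : ℝ)) (fun S _ _ => by split_ifs <;> norm_num)
  rwa [av_const h] at this

theorem pr_mono {k : ℕ} {V : Finset α} {z z' : ℝ} (h : z ≤ z') (x : α → ℝ) :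
    pr k V z x ≤ pr k V z' x := by
  refine av_mono fun S _ _ => ?_
  by_cases h1 : 0 ≤ z + ∑ i ∈ S, x i
  · rw [if_pos h1, if_pos (by linarith)]
  · rw [if_neg h1]
    split_ifs <;> norm_num

theorem pr_congr {k : ℕ} {V : Finset α} {z : ℝ} {x y : α → ℝ} (h : ∀ i ∈ V, x i = y i) :
    pr k V z x = pr k V z y := by
  refine av_congr fun S hS _ => ?_
  rw [Finset.sum_congr rfl fun i hi => h i (hS hi)]

/-- scaling -/
theorem pr_scale {k : ℕ} {V : Finset α} {z : ℝ} {x : α → ℝ} {l : ℝ} (hl : 0 < l) :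
    pr k V (l * z) (fun i => l * x i) = pr k V z x := by
  refine av_congr fun S _ _ => ?_
  rw [← Finset.mul_sum, ← mul_add]
  by_cases h : 0 ≤ z + ∑ i ∈ S, x i
  · rw [if_pos h, if_pos (mul_nonneg hl.le h)]
  · rw [if_neg h, if_neg]
    intro h1
    exact h (nonneg_of_mul_nonneg_right h1 hl)

/-- adding a constant to all values -/
theorem pr_shift (k : ℕ) (V : Finset α) (z : ℝ) (x : α → ℝ) (d : ℝ) :
    pr k V z (fun i => x i + d) = pr k V (z + k * d) x := by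
  refine av_congr fun S _ hc => ?_
  have e : z + ∑ i ∈ S, (x i + d) = z + k * d + ∑ i ∈ S, x i := by
    rw [Finset.sum_add_distrib, Finset.sum_const, hc, nsmul_eq_mul]
    ring
  rw [e]

/-- exposure of one element -/
theorem pr_expose {k : ℕ} {V : Finset α} {i : α} (hi : i ∈ V) (hk : k + 1 ≤ V.card) (z : ℝ)
    (x : α → ℝ) :
    pr (k + 1) V z x =
      (((V.card : ℝ) - (k + 1)) / V.card) * pr (k + 1) (V.erase i) z x +
      ((k + 1 : ℝ) / V.card) * pr k (V.erase i) (z + x i) x := by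
  unfold pr
  rw [av_split hi hk]
  congr 2
  refine av_congr fun S hS _ => ?_
  have hni : i ∉ S := fun h => (Finset.mem_erase.1 (hS h)).1 rfl
  rw [Finset.sum_insert hni, ← add_assoc]

/-- Every centred system with the given data has probability at least `τ`. -/
def Bd (N K : ℕ) (z Q c τ : ℝ) : Prop :=
  ∀ (α : Type) [DecidableEq α] (V : Finset α) (x : α → ℝ), V.card = N → ∑ i ∈ V, x i = 0 →
    ∑ i ∈ V, x i ^ 2 = Q → (∀ i ∈ V, |x i| ≤ c) → τ ≤ pr K V z x

theorem Bd.mono {N K : ℕ} {z z' Q c c' τ τ' : ℝ} (h : Bd N K z Q c τ) (hz : z ≤ z') (hc : c' ≤ c)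
    (hτ : τ' ≤ τ) : Bd N K z' Q c' τ' := by
  intro α _ V x hV h0 hQ hb
  exact hτ.trans ((h α V x hV h0 hQ fun i hi => (hb i hi).trans hc).trans (pr_mono hz x))

theorem Bd.zero {N K : ℕ} {z Q c : ℝ} : Bd N K z Q c 0 :=
  fun _ _ V x _ _ _ _ => pr_nonneg K V z x

theorem Bd.of_nonpos {N K : ℕ} {z Q c τ : ℝ} (h : τ ≤ 0) : Bd N K z Q c τ :=
  fun _ _ V x _ _ _ _ => h.trans (pr_nonneg K V z x)

theorem Bd.scale {N K : ℕ} {z Q c τ : ℝ} {l : ℝ} (hl : 0 < l)
    (h : Bd N K (l * z) (l ^ 2 * Q) (l * c) τ) : Bd N K z Q c τ := by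
  intro α _ V x hV h0 hQ hb
  rw [← pr_scale hl]
  refine h α V (fun i => l * x i) hV ?_ ?_ ?_
  · rw [← Finset.mul_sum, h0, mul_zero]
  · simp only [mul_pow]
    rw [← Finset.mul_sum, hQ]
  · intro i hi
    rw [abs_mul, abs_of_pos hl]
    exact mul_le_mul_of_nonneg_left (hb i hi) hl.le

/-- no system: the cap is too small for the square sum -/
theorem Bd.of_cap {N K : ℕ} {z Q c τ : ℝ} (h : N * c ^ 2 < Q) : Bd N K z Q c τ := by
  intro α _ V x hV h0 hQ hb
  exfalso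
  have h1 : ∑ i ∈ V, x i ^ 2 ≤ ∑ _i ∈ V, c ^ 2 := by
    refine Finset.sum_le_sum fun i hi => ?_
    have := pow_le_pow_left₀ (abs_nonneg _) (hb i hi) 2
    rwa [sq_abs] at this
  rw [Finset.sum_const, nsmul_eq_mul, hV, hQ] at h1
  linarith

/-- square sum zero -/
theorem Bd.of_zero {N K : ℕ} {z c : ℝ} (hK : K ≤ N) (hz : 0 ≤ z) : Bd N K z 0 c 1 := by
  intro α _ V x hV h0 hQ hb
  have hz0 : ∀ i ∈ V, x i = 0 := by
    have := (Finset.sum_eq_zero_iff_of_nonneg (fun i _ => sq_nonneg (x i))).1 hQ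
    intro i hi
    exact pow_eq_zero_iff (two_ne_zero) |>.1 (this i hi)
  unfold pr
  rw [av_congr (G := fun _ => (1 : ℝ)), av_const (by omega)]
  intro S hS _
  rw [Finset.sum_eq_zero fun i hi => hz0 i (hS hi), add_zero, if_pos hz]

/-- all elements are chosen -/
theorem Bd.of_full {N : ℕ} {z Q c : ℝ} (hz : 0 ≤ z) : Bd N N z Q c 1 := by
  intro α _ V x hV h0 hQ hb
  unfold pr
  rw [av_congr (G := fun _ => (1 : ℝ)), av_const (by omega)]
  intro S hS hc
  have : S = V := Finset.eq_of_subset_of_card_le hS (by omega)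
  rw [this, h0, add_zero, if_pos hz]

/-- no element is chosen -/
theorem Bd.of_none {N : ℕ} {z Q c : ℝ} (hz : 0 ≤ z) : Bd N 0 z Q c 1 := by
  intro α _ V x hV h0 hQ hb
  unfold pr
  rw [av_zero]
  simp [hz]

/-- centring the rest after removal of `i` -/
theorem rest_sum {V : Finset α} {i : α} (hi : i ∈ V) (hV : 2 ≤ V.card) (x : α → ℝ)
    (h0 : ∑ j ∈ V, x j = 0) :
    ∑ j ∈ V.erase i, (x j + x i / ((V.card : ℝ) - 1)) = 0 := by
  have hc := card_erase_cast hi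
  have h1 : ∑ j ∈ V.erase i, x j = - x i := by
    have := Finset.add_sum_erase V x hi
    linarith
  have hne : (V.card : ℝ) - 1 ≠ 0 := by
    have : (2 : ℝ) ≤ V.card := by exact_mod_cast hV
    linarith
  rw [Finset.sum_add_distrib, h1, Finset.sum_const, nsmul_eq_mul, hc]
  field_simp
  ring

theorem rest_sq {V : Finset α} {i : α} (hi : i ∈ V) (hV : 2 ≤ V.card) (x : α → ℝ)
    (h0 : ∑ j ∈ V, x j = 0) :
    ∑ j ∈ V.erase i, (x j + x i / ((V.card : ℝ) - 1)) ^ 2 =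
      ∑ j ∈ V, x j ^ 2 - x i ^ 2 * (V.card / ((V.card : ℝ) - 1)) := by
  have hc := card_erase_cast hi
  have h1 : ∑ j ∈ V.erase i, x j = - x i := by
    have := Finset.add_sum_erase V x hi
    linarith
  have h2 : ∑ j ∈ V.erase i, x j ^ 2 = ∑ j ∈ V, x j ^ 2 - x i ^ 2 := by
    have := Finset.add_sum_erase V (fun j => x j ^ 2) hi
    linarith
  have hne : (V.card : ℝ) - 1 ≠ 0 := by
    have : (2 : ℝ) ≤ V.card := by exact_mod_cast hV
    linarith
  have e : ∀ j ∈ V.erase i, (x j + x i / ((V.card : ℝ) - 1)) ^ 2 =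
      x j ^ 2 + (2 * (x i / ((V.card : ℝ) - 1))) * x j + (x i / ((V.card : ℝ) - 1)) ^ 2 := by
    intro j _
    ring
  rw [Finset.sum_congr rfl e, Finset.sum_add_distrib, Finset.sum_add_distrib, ← Finset.mul_sum, h1,
    h2, Finset.sum_const, nsmul_eq_mul, hc]
  field_simp
  ring

/-- The exposure rule. `m` is the largest absolute value, `s = ± m` the exposed value. -/
theorem Bd.expose {N K : ℕ} {z Q c τ : ℝ} (hN : 2 ≤ N) (hK : 1 ≤ K) (hKN : K ≤ N) (m0 : ℝ)
    (hsmall : Bd N K z Q m0 τ)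
    (h : ∀ s : ℝ, m0 ≤ |s| → |s| ≤ c → s ^ 2 * (N / ((N : ℝ) - 1)) ≤ Q → Q ≤ N * s ^ 2 →
      ∃ τ1 τ2 : ℝ, τ ≤ (K / N : ℝ) * τ1 + (1 - K / N : ℝ) * τ2 ∧
        Bd (N - 1) (K - 1) (z + s * (((N : ℝ) - K) / (N - 1))) (Q - s ^ 2 * (N / ((N : ℝ) - 1)))
          (|s| * (N / ((N : ℝ) - 1))) τ1 ∧
        Bd (N - 1) K (z - s * (K / ((N : ℝ) - 1))) (Q - s ^ 2 * (N / ((N : ℝ) - 1)))
          (|s| * (N / ((N : ℝ) - 1))) τ2) :
    Bd N K z Q c τ := by
  intro α _ V x hV h0 hQ hb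
  have hVne : V.Nonempty := Finset.card_pos.1 (by omega)
  obtain ⟨i, hi, himax⟩ := V.exists_max_image (fun i => |x i|) hVne
  rcases le_total m0 |x i| with hm | hm
  swap
  · exact hsmall α V x hV h0 hQ fun j hj => (himax j hj).trans hm
  have hNR : (2 : ℝ) ≤ N := by exact_mod_cast hN
  have hN1 : (0 : ℝ) < (N : ℝ) - 1 := by linarith
  have hne : (N : ℝ) - 1 ≠ 0 := hN1.ne'
  have hcard2 : 2 ≤ V.card := by omega
  have hrs := rest_sum hi hcard2 x h0
  have hrq := rest_sq hi hcard2 x h0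
  rw [hV] at hrs hrq
  rw [hQ] at hrq
  have hQs : x i ^ 2 * (N / ((N : ℝ) - 1)) ≤ Q := by
    have : 0 ≤ ∑ j ∈ V.erase i, (x j + x i / ((N : ℝ) - 1)) ^ 2 :=
      Finset.sum_nonneg fun j _ => sq_nonneg _
    linarith
  have hQN : Q ≤ N * x i ^ 2 := by
    rw [← hQ]
    have : ∑ j ∈ V, x j ^ 2 ≤ ∑ _j ∈ V, x i ^ 2 := by
      refine Finset.sum_le_sum fun j hj => ?_
      have := pow_le_pow_left₀ (abs_nonneg _) (himax j hj) 2
      rwa [sq_abs, sq_abs] at this
    rwa [Finset.sum_const, nsmul_eq_mul, hV] at this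
  obtain ⟨τ1, τ2, hτ, hB1, hB2⟩ := h (x i) hm (hb i hi) hQs hQN
  have hcap : ∀ j ∈ V.erase i, |x j + x i / ((N : ℝ) - 1)| ≤ |x i| * (N / ((N : ℝ) - 1)) := by
    intro j hj
    have h1 := himax j (Finset.mem_of_mem_erase hj)
    have h2 : |x i / ((N : ℝ) - 1)| = |x i| / ((N : ℝ) - 1) := by
      rw [abs_div, abs_of_pos hN1]
    have h3 := abs_add_le (x j) (x i / ((N : ℝ) - 1))
    have h4 : |x i| * (N / ((N : ℝ) - 1)) = |x i| + |x i| / ((N : ℝ) - 1) := by
      field_simp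
      ring
    linarith
  have hcE : (V.erase i).card = N - 1 := by rw [Finset.card_erase_of_mem hi, hV]
  obtain ⟨k, rfl⟩ : ∃ k, K = k + 1 := ⟨K - 1, by omega⟩
  have hex := pr_expose hi (by omega : k + 1 ≤ V.card) z x
  rw [hV] at hex
  have hk1 : ((k + 1 : ℕ) : ℝ) = (k : ℝ) + 1 := by push_cast; ring
  have hkN : (k : ℝ) + 1 ≤ N := by
    have : ((k + 1 : ℕ) : ℝ) ≤ N := by exact_mod_cast hKN
    linarith
  have e1 := hB1 α (V.erase i) (fun j => x j + x i / ((N : ℝ) - 1)) hcE hrs hrq hcap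
  have e2 := hB2 α (V.erase i) (fun j => x j + x i / ((N : ℝ) - 1)) hcE hrs hrq hcap
  rw [pr_shift] at e1 e2
  simp only [Nat.add_sub_cancel] at e1
  have z1 : z + x i * (((N : ℝ) - ((k + 1 : ℕ) : ℝ)) / (N - 1)) + k * (x i / ((N : ℝ) - 1)) =
      z + x i := by
    rw [hk1]
    field_simp
    ring
  have z2 : z - x i * (((k + 1 : ℕ) : ℝ) / ((N : ℝ) - 1)) +
      ((k + 1 : ℕ) : ℝ) * (x i / ((N : ℝ) - 1)) = z := by
    ring
  rw [z1] at e1
  rw [z2] at e2
  rw [hex]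
  rw [hk1] at hτ
  have hw1 : 0 ≤ ((k : ℝ) + 1) / N := by positivity
  have hw2 : 0 ≤ ((N : ℝ) - (k + 1)) / N := div_nonneg (by linarith) (by linarith)
  have hN0 : (N : ℝ) ≠ 0 := by linarith
  have hw3 : 1 - ((k : ℝ) + 1) / N = ((N : ℝ) - (k + 1)) / N := by
    field_simp
  rw [hw3] at hτ
  have m1 := mul_le_mul_of_nonneg_left e1 hw1
  have m2 := mul_le_mul_of_nonneg_left e2 hw2
  linarith

end Pool.Agent.MMS4
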